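import Pool.Agent.LTC.Defs

/-! LTC/Aut (0.5h).  A finite set blocks the steps `1, 4` iff the automaton reaches four dead positions in a row.

PLAN.  `dead H x` for `x : ℕ`: the first bit of `st (ind H (x+1))`; `st (ind H (n+1)) = stp (st (ind H n)) (decide (n ∈ H))` (`List.range_succ`, `List.foldl_append`), so the
state after `n` letters is `(dead (n-1), dead (n-2), dead (n-3), dead (n-4))` (false for negative positions), and `dead x ↔ x ∈ H ∨ (dead (x-1) ∧ dead (x-4))`.
(←) A sequence `τ` with steps `1, 4` that starts below `0` and never meets `H` stays at positions which are negative or not dead (induction: the predecessor is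
alive, the position is not in `H`), and it is unbounded with steps `≤ 4`, so it cannot jump over the four dead positions `n-4, ..., n-1` (all `≥ 0` since dead).
(→) If there is no such `n`, then among `M, M+1, M+2, M+3` (`M > ` all elements of `H`) there is an alive position `x`; going back, an alive `y ≥ 0` has `y - 1` or `y - 4`
alive or negative (as `y` is not dead) and `y ∉ H`: so there is a finite path from below `0` to `x` that avoids `H` (strong induction on `y`: for every alive `y` there are
`τ, m` with `τ 0 < 0`, `τ m = y`, and `τ` avoids `H` up to `m`); continue it with steps `1` above `x` (no elements of `H` there). -/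

set_option autoImplicit false

namespace Pool.Agent.LTC

theorem st_succ (H : Finset ℕ) (n : ℕ) : st (ind H (n + 1)) = stp (st (ind H n)) (decide (n ∈ H)) := by
  unfold st ind
  rw [List.range_succ, List.map_append, List.foldl_append]
  rfl

/-- position `x` is dead -/
private def aut_d (H : Finset ℕ) (x : ℤ) : Bool :=
  if 0 ≤ x then (st (ind H (x.toNat + 1))).1 else false

private theorem aut_d_neg (H : Finset ℕ) {x : ℤ} (hx : x < 0) : aut_d H x = false := by
  unfold aut_d
  rw [if_neg (by omega)]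

private theorem aut_d_nonneg (H : Finset ℕ) {x : ℤ} (hx : aut_d H x = true) : 0 ≤ x := by
  by_contra h
  rw [aut_d_neg H (by omega)] at hx
  exact absurd hx (by decide)

private theorem aut_d_nat (H : Finset ℕ) (n : ℕ) : aut_d H (n : ℤ) = (st (ind H (n + 1))).1 := by
  unfold aut_d
  rw [if_pos (by omega), Int.toNat_natCast]

private theorem aut_st (H : Finset ℕ) (n : ℕ) :
    st (ind H n) = (aut_d H ((n : ℤ) - 1), aut_d H ((n : ℤ) - 2), aut_d H ((n : ℤ) - 3),
      aut_d H ((n : ℤ) - 4)) := by
  induction n with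
  | zero =>
    rw [aut_d_neg H (by omega), aut_d_neg H (by omega), aut_d_neg H (by omega),
      aut_d_neg H (by omega)]
    rfl
  | succ n ih =>
    have h1 : st (ind H (n + 1)) = ((st (ind H (n + 1))).1, (st (ind H (n + 1))).2) := rfl
    have h2 : (st (ind H (n + 1))).2 = ((st (ind H n)).1, (st (ind H n)).2.1,
        (st (ind H n)).2.2.1) := by
      rw [st_succ]
      rfl
    rw [h1, h2, ← aut_d_nat, ih]
    have e1 : ((n + 1 : ℕ) : ℤ) - 1 = n := by omega
    have e2 : ((n + 1 : ℕ) : ℤ) - 2 = (n : ℤ) - 1 := by omega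
    have e3 : ((n + 1 : ℕ) : ℤ) - 3 = (n : ℤ) - 2 := by omega
    have e4 : ((n + 1 : ℕ) : ℤ) - 4 = (n : ℤ) - 3 := by omega
    rw [e1, e2, e3, e4]

private theorem aut_rec (H : Finset ℕ) (n : ℕ) :
    aut_d H (n : ℤ) = (decide (n ∈ H) || (aut_d H ((n : ℤ) - 1) && aut_d H ((n : ℤ) - 4))) := by
  rw [aut_d_nat, st_succ, aut_st]
  rfl

private theorem aut_path (H : Finset ℕ) (N : ℕ) : ∀ y : ℤ, y < N → aut_d H y = false →
    ∃ (τ : ℕ → ℤ) (m : ℕ), τ 0 < 0 ∧ (∀ n, τ (n + 1) - τ n = 1 ∨ τ (n + 1) - τ n = 4) ∧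
      τ m = y ∧ (∀ i ≤ m, ∀ h ∈ H, τ i ≠ (h : ℤ)) ∧ ∀ i : ℕ, τ (m + i) = y + i := by
  have base : ∀ y : ℤ, y < 0 →
      ∃ (τ : ℕ → ℤ) (m : ℕ), τ 0 < 0 ∧ (∀ n, τ (n + 1) - τ n = 1 ∨ τ (n + 1) - τ n = 4) ∧
      τ m = y ∧ (∀ i ≤ m, ∀ h ∈ H, τ i ≠ (h : ℤ)) ∧ ∀ i : ℕ, τ (m + i) = y + i := by
    intro y hy
    refine ⟨fun i => y + i, 0, ?_, fun n => Or.inl ?_, ?_, ?_, ?_⟩
    · show y + ((0 : ℕ) : ℤ) < 0
      omega
    · show y + ((n + 1 : ℕ) : ℤ) - (y + (n : ℤ)) = 1
      omega
    · show y + ((0 : ℕ) : ℤ) = y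
      omega
    · intro i hi h _ he
      have he' : y + (i : ℤ) = (h : ℤ) := he
      omega
    · intro i
      show y + ((0 + i : ℕ) : ℤ) = y + i
      omega
  induction N with
  | zero =>
    intro y hy _
    exact base y (by simpa using hy)
  | succ N ih =>
    intro y hy hd
    by_cases hneg : y < 0
    · exact base y hneg
    have hy0 : 0 ≤ y := by omega
    obtain ⟨k, rfl⟩ : ∃ k : ℕ, y = (k : ℤ) := ⟨y.toNat, by omega⟩
    rw [aut_rec, Bool.or_eq_false_iff, Bool.and_eq_false_iff, decide_eq_false_iff_not] at hd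
    obtain ⟨hk, hd⟩ := hd
    have hpre : ∃ s : ℤ, (s = 1 ∨ s = 4) ∧ aut_d H ((k : ℤ) - s) = false := by
      rcases hd with hd | hd
      · exact ⟨1, Or.inl rfl, hd⟩
      · exact ⟨4, Or.inr rfl, hd⟩
    obtain ⟨s, hs, hds⟩ := hpre
    obtain ⟨τ, m, h0, hst, hm, hav, -⟩ := ih ((k : ℤ) - s) (by push_cast at hy; omega) hds
    refine ⟨fun i => if i ≤ m then τ i else (k : ℤ) + ((i : ℤ) - m - 1), m + 1, ?_, ?_, ?_, ?_, ?_⟩
    · show (if 0 ≤ m then τ 0 else _) < 0
      rw [if_pos (Nat.zero_le m)]
      exact h0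
    · intro n
      show (if n + 1 ≤ m then τ (n + 1) else (k : ℤ) + (((n + 1 : ℕ) : ℤ) - m - 1)) -
          (if n ≤ m then τ n else (k : ℤ) + ((n : ℤ) - m - 1)) = 1 ∨
        (if n + 1 ≤ m then τ (n + 1) else (k : ℤ) + (((n + 1 : ℕ) : ℤ) - m - 1)) -
          (if n ≤ m then τ n else (k : ℤ) + ((n : ℤ) - m - 1)) = 4
      by_cases h1 : n + 1 ≤ m
      · rw [if_pos h1, if_pos (by omega)]
        exact hst n
      · rw [if_neg h1]
        by_cases h2 : n ≤ m
        · have h3 : n = m := by omega
          subst h3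
          rw [if_pos h2, hm]
          push_cast
          omega
        · rw [if_neg h2]
          left
          push_cast
          ring
    · show (if m + 1 ≤ m then τ (m + 1) else (k : ℤ) + (((m + 1 : ℕ) : ℤ) - m - 1)) = k
      rw [if_neg (by omega)]
      push_cast
      ring
    · intro i hi h hh
      show (if i ≤ m then τ i else (k : ℤ) + ((i : ℤ) - m - 1)) ≠ (h : ℤ)
      by_cases h1 : i ≤ m
      · rw [if_pos h1]
        exact hav i h1 h hh
      · have h2 : i = m + 1 := by omega
        subst h2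
        rw [if_neg h1]
        intro he
        have h3 : k = h := by
          push_cast at he
          omega
        exact hk (h3 ▸ hh)
    · intro i
      show (if m + 1 + i ≤ m then τ (m + 1 + i) else (k : ℤ) + (((m + 1 + i : ℕ) : ℤ) - m - 1)) =
        (k : ℤ) + i
      rw [if_neg (by omega)]
      push_cast
      ring

theorem blocks_iff (H : Finset ℕ) : Blocks 1 4 H ↔ ∃ n : ℕ, st (ind H n) = (true, true, true, true) := by
  constructor
  · intro hB
    by_contra hcon
    push Not at hcon
    obtain ⟨M, hM⟩ : ∃ M : ℕ, ∀ h ∈ H, h < M :=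
      ⟨H.sup id + 1, fun h hh => Nat.lt_succ_of_le (Finset.le_sup (f := id) hh)⟩
    have h1 := hcon (M + 4)
    rw [aut_st] at h1
    have h2 : ∃ x : ℤ, (M : ℤ) ≤ x ∧ aut_d H x = false := by
      by_contra h3
      push Not at h3
      apply h1
      have h4 : ∀ x : ℤ, (M : ℤ) ≤ x → aut_d H x = true := by
        intro x hx
        have := h3 x hx
        rwa [Bool.ne_false_iff] at this
      rw [h4 _ (by push_cast; omega), h4 _ (by push_cast; omega), h4 _ (by push_cast; omega),
        h4 _ (by push_cast; omega)]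
    obtain ⟨x, hMx, hx⟩ := h2
    obtain ⟨τ, m, h0, hst, -, hav, haft⟩ := aut_path H (x.toNat + 1) x (by push_cast; omega) hx
    obtain ⟨n, h, hh, hn⟩ := hB τ h0 (fun n => by simpa using hst n)
    by_cases hnm : n ≤ m
    · exact hav n hnm h hh hn
    · have h5 := haft (n - m)
      rw [show m + (n - m) = n by omega, hn] at h5
      have h6 := hM h hh
      omega
  · rintro ⟨n, hn⟩ τ h0 hst
    by_contra hcon
    push Not at hcon
    rw [aut_st, Prod.mk.injEq, Prod.mk.injEq, Prod.mk.injEq] at hn
    obtain ⟨d1, d2, d3, d4⟩ := hn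
    have hn4 : 0 ≤ (n : ℤ) - 4 := aut_d_nonneg H d4
    have hal : ∀ m, aut_d H (τ m) = false := by
      intro m
      induction m with
      | zero => exact aut_d_neg H h0
      | succ m ih =>
        by_contra h1
        rw [Bool.not_eq_false] at h1
        have h2 := aut_d_nonneg H h1
        obtain ⟨k, hk⟩ : ∃ k : ℕ, τ (m + 1) = (k : ℤ) := ⟨(τ (m + 1)).toNat, by omega⟩
        rw [hk, aut_rec, Bool.or_eq_true, Bool.and_eq_true, decide_eq_true_eq] at h1
        rcases h1 with h1 | ⟨h3, h4⟩
        · exact hcon (m + 1) k h1 hk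
        · rcases hst m with h5 | h5
          · rw [show (k : ℤ) - 1 = τ m by push_cast at h5; omega, ih] at h3
            exact absurd h3 (by decide)
          · rw [show (k : ℤ) - 4 = τ m by push_cast at h5; omega, ih] at h4
            exact absurd h4 (by decide)
    have hgrow : ∀ m : ℕ, τ 0 + m ≤ τ m := by
      intro m
      induction m with
      | zero => simp
      | succ m ih =>
        rcases hst m with h5 | h5 <;> push_cast at h5 ⊢ <;> omega
    have hex : ∃ m : ℕ, (n : ℤ) - 4 ≤ τ m := by
      refine ⟨((n : ℤ) - 4 - τ 0).toNat, ?_⟩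
      have := hgrow ((n : ℤ) - 4 - τ 0).toNat
      omega
    classical
    have hm := Nat.find_spec hex
    have hmin := fun k => Nat.find_min hex (m := k)
    generalize Nat.find hex = m at hm hmin
    cases m with
    | zero => omega
    | succ m =>
      have h6 := hmin m (Nat.lt_succ_self m)
      have h7 : τ (m + 1) ≤ (n : ℤ) - 1 := by
        rcases hst m with h5 | h5 <;> push_cast at h5 <;> omega
      have h8 := hal (m + 1)
      have h9 : τ (m + 1) = (n : ℤ) - 1 ∨ τ (m + 1) = (n : ℤ) - 2 ∨ τ (m + 1) = (n : ℤ) - 3 ∨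
          τ (m + 1) = (n : ℤ) - 4 := by omega
      rcases h9 with h9 | h9 | h9 | h9 <;> rw [h9] at h8
      · rw [d1] at h8; exact absurd h8 (by decide)
      · rw [d2] at h8; exact absurd h8 (by decide)
      · rw [d3] at h8; exact absurd h8 (by decide)
      · rw [d4] at h8; exact absurd h8 (by decide)

end Pool.Agent.LTC
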