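import Pool.Agent.LTC.Defs

/-! LTC/Bas (0.4h).  First properties of blocking sets.

PLAN.  `blocks_card`: for a class `r < q` with no element of `H` congruent to `r`, the sequence `τ n = r - q + q n` does not meet `H`: so every class
`r < q` contains an element of `H`, `q ≤ H.card` (`Finset.card_le_card_of_surjOn` or `Finset.card_le_card_of_injOn`).
`blocks_pair`: otherwise from every integer `x` one of `x + p`, `x + q` is not in `H` (both in `H` gives `h = x + p`, `h + (q - p) = x + q`); the greedy sequence
from `-1` never meets `H` (define `τ` by `Nat.rec` with `if x + q ∈ H then x + p else x + q`).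
`blocks_mono`: trivial.  `blocks_shift`: if `H` (of naturals) blocks and `H = K + s` then `K` blocks: shift `τ` by `s` (a sequence that starts below `0`
shifted by `s` may start at `≥ 0`: start the sequence further below by adding steps `q` at the front, or translate: prove it as: given `τ` with `τ 0 < 0`,
let `τ' n = τ (n - m) + s` for `n ≥ m`, preceded by `m` steps `q`, `m ≥ s`). -/

set_option autoImplicit false

namespace Pool.Agent.LTC

theorem blocks_card (p q : ℕ) (hq : 0 < q) (H : Finset ℕ) (h : Blocks p q H) : q ≤ H.card := by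
  have h1 : (Finset.range q).card ≤ H.card := by
    refine Finset.card_le_card_of_surjOn (fun x => x % q) ?_
    intro r hr
    have hr' : r < q := by simpa using hr
    obtain ⟨n, x, hx, hn⟩ := h (fun n => (r : ℤ) - q + q * n) (by push_cast; omega) (fun n => Or.inr (by
      push_cast; ring))
    refine ⟨x, hx, ?_⟩
    have h2 : (x : ℤ) = r + q * ((n : ℤ) - 1) := by
      have hn' : (r : ℤ) - q + q * n = x := hn
      rw [← hn']; ring
    have h3 : ((x % q : ℕ) : ℤ) = (r : ℤ) := by
      rw [Int.natCast_mod, h2, Int.add_mul_emod_self_left]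
      exact Int.emod_eq_of_lt (by omega) (by exact_mod_cast hr')
    show x % q = r
    exact_mod_cast h3
  simpa using h1

theorem blocks_pair (p q : ℕ) (hpq : p < q) (H : Finset ℕ) (h : Blocks p q H) : ∃ x ∈ H, x + (q - p) ∈ H := by
  classical
  by_contra hne
  push Not at hne
  let f : ℤ → ℤ := fun x => if ∃ h ∈ H, x + q = (h : ℤ) then x + p else x + q
  have hf : ∀ x : ℤ, ∀ y ∈ H, f x ≠ (y : ℤ) := by
    intro x y hy hxy
    by_cases hc : ∃ h ∈ H, x + q = (h : ℤ)
    · obtain ⟨z, hz, hxz⟩ := hc
      have h1 : f x = x + p := if_pos ⟨z, hz, hxz⟩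
      rw [h1] at hxy
      refine hne y hy ?_
      have h2 : z = y + (q - p) := by omega
      rw [← h2]
      exact hz
    · have h1 : f x = x + q := if_neg hc
      rw [h1] at hxy
      exact hc ⟨y, hy, hxy⟩
  obtain ⟨n, y, hy, hn⟩ := h (fun n => f^[n] (-1)) (by simp) (fun n => by
    show f^[n + 1] (-1) - f^[n] (-1) = p ∨ f^[n + 1] (-1) - f^[n] (-1) = q
    rw [Function.iterate_succ_apply']
    generalize f^[n] (-1) = x
    by_cases hc : ∃ h ∈ H, x + q = (h : ℤ)
    · left
      have h1 : f x = x + p := if_pos hc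
      rw [h1]; ring
    · right
      have h1 : f x = x + q := if_neg hc
      rw [h1]; ring)
  cases n with
  | zero =>
    have h0 : (-1 : ℤ) = y := hn
    omega
  | succ n =>
    have h1 : f^[n + 1] (-1) = (y : ℤ) := hn
    rw [Function.iterate_succ_apply'] at h1
    exact hf _ y hy h1

theorem blocks_mono (p q : ℕ) (H K : Finset ℕ) (h : Blocks p q H) (hK : H ⊆ K) : Blocks p q K := by
  intro τ h0 hs
  obtain ⟨n, x, hx, hn⟩ := h τ h0 hs
  exact ⟨n, x, hK hx, hn⟩

theorem blocks_shift (p q : ℕ) (hq : 0 < q) (s : ℕ) (K : Finset ℕ) (h : Blocks p q (K.image (fun x => x + s))) : Blocks p q K := by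
  intro τ h0 hs
  have hq1 : (1 : ℤ) ≤ q := by exact_mod_cast hq
  obtain ⟨n, y, hy, hn⟩ := h (fun n => if n < s then τ 0 + s - q * ((s : ℤ) - n) else τ (n - s) + s) (by
    by_cases hs0 : 0 < s
    · show (if 0 < s then τ 0 + s - q * ((s : ℤ) - (0 : ℕ)) else τ (0 - s) + s) < 0
      rw [if_pos hs0]
      push_cast
      nlinarith
    · show (if 0 < s then τ 0 + s - q * ((s : ℤ) - (0 : ℕ)) else τ (0 - s) + s) < 0
      rw [if_neg hs0]
      have : s = 0 := by omega
      subst this
      simpa using h0) (fun n => by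
    show ((if n + 1 < s then τ 0 + s - q * ((s : ℤ) - (n + 1 : ℕ)) else τ (n + 1 - s) + s) -
      (if n < s then τ 0 + s - q * ((s : ℤ) - n) else τ (n - s) + s) = p) ∨
      ((if n + 1 < s then τ 0 + s - q * ((s : ℤ) - (n + 1 : ℕ)) else τ (n + 1 - s) + s) -
      (if n < s then τ 0 + s - q * ((s : ℤ) - n) else τ (n - s) + s) = q)
    by_cases h1 : n + 1 < s
    · right
      rw [if_pos h1, if_pos (by omega)]
      push_cast
      ring
    · by_cases h2 : n < s
      · right
        have h3 : s = n + 1 := by omega
        rw [if_neg h1, if_pos h2, h3]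
        simp
      · rw [if_neg h1, if_neg h2]
        have h3 : n + 1 - s = (n - s) + 1 := by omega
        rw [h3]
        rcases hs (n - s) with h4 | h4
        · left; rw [← h4]; ring
        · right; rw [← h4]; ring)
  obtain ⟨k, hk, rfl⟩ := Finset.mem_image.1 hy
  have hn' : (if n < s then τ 0 + s - q * ((s : ℤ) - n) else τ (n - s) + s) = ((k + s : ℕ) : ℤ) := hn
  by_cases h1 : n < s
  · rw [if_pos h1] at hn'
    exfalso
    push_cast at hn'
    have h2 : (0 : ℤ) < (s : ℤ) - n := by omega
    nlinarith
  · rw [if_neg h1] at hn'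
    refine ⟨n - s, k, hk, ?_⟩
    push_cast at hn'
    linarith

end Pool.Agent.LTC
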