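import Mathlib
import Pool.Agent.Helper27.WalkDefs

/-! LTC/Stmt.  The prime constellations which decide Q1 (MP_d44763_nt). -/

set_option autoImplicit false

namespace Pool.Agent.LTC

open Pool.Agent.Helper27

/-- `H` blocks the steps `p, q`: every sequence of integers with steps `p`, `q` that starts below `0` meets `H`. -/
def Blocks (p q : ℕ) (H : Finset ℕ) : Prop :=
  ∀ τ : ℕ → ℤ, τ 0 < 0 → (∀ n, τ (n + 1) - τ n = p ∨ τ (n + 1) - τ n = q) →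
    ∃ n : ℕ, ∃ h ∈ H, τ n = (h : ℤ)

/-- For infinitely many `n` all the numbers `a + g (n + h)`, `h ∈ H`, are primes. -/
def Often (a g : ℤ) (H : Finset ℕ) : Prop :=
  {n : ℕ | ∀ h ∈ H, IsPosPrime (a + g * ((n + h : ℕ) : ℤ))}.Infinite

/-- 25 constellations for the steps `1, 4` -/
def list25 : List (List ℕ) := [
  [0, 2, 3, 5],
  [0, 1, 3, 6],
  [0, 3, 5, 6],
  [0, 3, 6, 9],
  [0, 1, 3, 7, 10],
  [0, 3, 7, 9, 10],
  [0, 3, 6, 10, 13],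
  [0, 3, 7, 10, 13],
  [0, 1, 3, 7, 12, 15, 18],
  [0, 3, 6, 11, 15, 17, 18],
  [0, 3, 6, 10, 15, 18, 21],
  [0, 3, 6, 11, 14, 18, 21],
  [0, 3, 6, 11, 15, 18, 21],
  [0, 3, 7, 10, 15, 18, 21],
  [0, 3, 6, 10, 15, 18, 22, 25],
  [0, 3, 7, 10, 15, 18, 22, 25],
  [0, 3, 7, 10, 15, 19, 22, 25],
  [0, 3, 6, 11, 14, 18, 23, 26, 30, 33],
  [0, 3, 7, 10, 15, 19, 22, 27, 30, 33],
  [0, 3, 7, 10, 15, 18, 22, 27, 30, 34, 37],
  [0, 3, 7, 10, 15, 19, 22, 27, 30, 34, 37],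
  [0, 3, 6, 11, 14, 18, 23, 26, 30, 35, 38, 41],
  [0, 3, 6, 11, 15, 18, 23, 27, 30, 35, 38, 41],
  [0, 3, 6, 11, 15, 18, 23, 27, 30, 35, 38, 42, 45],
  [0, 3, 7, 10, 15, 18, 22, 27, 30, 34, 39, 42, 45]]

end Pool.Agent.LTC
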