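import Mathlib
import Pool.Agent.LTC.Stmt

/-! LTC/Defs.  The automaton for the steps `1, 4`. -/

set_option autoImplicit false

namespace Pool.Agent.LTC

open Pool.Agent.Helper27

/-! ### The automaton for the steps `1, 4`: the last four dead bits -/

/-- one step: the new position is dead iff it is in the set (`b`) or the positions `1` and `4` before it are dead -/
def stp (s : Bool × Bool × Bool × Bool) (b : Bool) : Bool × Bool × Bool × Bool :=
  (b || (s.1 && s.2.2.2), s.1, s.2.1, s.2.2.1)

/-- the state after reading a word -/
def st (w : List Bool) : Bool × Bool × Bool × Bool := w.foldl stp (false, false, false, false)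

/-- the first `n` letters of the indicator of `H` -/
def ind (H : Finset ℕ) (n : ℕ) : List Bool := (List.range n).map (fun x => decide (x ∈ H))

end Pool.Agent.LTC
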