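import Pool.Agent.LTC.Glue
import Pool.Agent.LTC.Defs
import Pool.Agent.LAP.Run

/-! LTC/Crit (0.6h).  The exact criterion.

PLAN.  `g = Int.gcd i j > 0` (even), `p = (i/g).toNat`, `q = (j/g).toNat` coprime, `0 < p < q`.  `D'` from `LAP.runs g (1/2) (2 q + q p)`; the theorem holds with `D = 2 D'`.
A prime is `Rough (1/2)` (`p > p^(1/2)` for `p ≥ 2`), so `¬ Rough → ¬ IsPosPrime`.
(←) Let `k` be odd, `A` a walk from `k`: `A m = k + g * τ m`, `τ 0 = 0`, steps `p, q`.  `H` for `a = k`; the set of `n` is infinite, take `n ≥ 1` in it; the sequence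
`τ m - n` starts below `0`, so it meets `h ∈ H`: `A m = k + g (n + h)` is prime.
(→) By contradiction: an odd `a` such that no `H ⊆ range (2 D')` with `Blocks p q H` has `Often a g H`.  The family is finite and every set of `n` is finite, so there
is `N` such that for all `n ≥ N` and all such `H` not all `a + g (n + h)` are prime.  `Bad t := IsPosPrime (a + g (N + t))`.  `hD` of `glue`: from `runs` (with
`k = a + g N`).  `hX`: for `n` the set `P = {h < 2 D' : a + g (N + n + h) prime}` does not block, so there is `τ` with `τ 0 < 0`, never in `P`; use `τ + n`.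
`glue` gives `X`, and `m ↦ a + g (N + X m)` is a walk without primes from an odd number: contradiction with `ForcesPrimes`. -/

set_option autoImplicit false

namespace Pool.Agent.LTC

open Pool.Agent.Helper27

private theorem crit_rough {x : ℤ} (h : IsPosPrime x) : LAP.Rough (1 / 2) x := by
  obtain ⟨p, hp, rfl⟩ := h
  refine ⟨by exact_mod_cast hp.two_le, fun r hr hd => ?_⟩
  have h1 : r ∣ p := by exact_mod_cast hd
  have h2 : r = p := (Nat.prime_dvd_prime_iff_eq hr hp).1 h1
  subst h2
  have h3 : (1 : ℝ) < (r : ℝ) := by exact_mod_cast hr.one_lt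
  have h4 := Real.rpow_lt_self_of_one_lt h3 (by norm_num : (1 / 2 : ℝ) < 1)
  exact_mod_cast h4

/-- the integer walk of the positions -/
private theorem crit_pos {g : ℤ} (hg : 0 < g) {p q k : ℤ} {A : ℕ → ℤ} (hA : IsWalk (g * p) (g * q) k A) :
    ∃ τ : ℕ → ℤ, (∀ m, A m = k + g * τ m) ∧ τ 0 = 0 ∧ ∀ m, τ (m + 1) - τ m = p ∨ τ (m + 1) - τ m = q := by
  have h1 : ∀ m, ∃ t, A m = k + g * t := by
    intro m
    induction m with
    | zero => exact ⟨0, by rw [hA.1]; ring⟩
    | succ m ih =>
      obtain ⟨t, ht⟩ := ih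
      rcases hA.2 m with h | h
      · exact ⟨t + p, by linear_combination h + ht⟩
      · exact ⟨t + q, by linear_combination h + ht⟩
  choose τ hτ using h1
  refine ⟨τ, hτ, ?_, fun m => ?_⟩
  · have h2 := hτ 0
    rw [hA.1] at h2
    have h3 : g * τ 0 = 0 := by linarith
    exact (mul_eq_zero.1 h3).resolve_left hg.ne'
  · rcases hA.2 m with h | h
    · left
      refine mul_left_cancel₀ hg.ne' ?_
      rw [hτ, hτ] at h
      linear_combination h
    · right
      refine mul_left_cancel₀ hg.ne' ?_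
      rw [hτ, hτ] at h
      linear_combination h

/-- uniform bound for finitely many constellations -/
private theorem crit_bound (a g : ℤ) (S : Finset (Finset ℕ)) (h : ∀ H ∈ S, ¬ Often a g H) :
    ∃ N : ℕ, ∀ n : ℕ, N ≤ n → ∀ H ∈ S, ¬ ∀ x ∈ H, IsPosPrime (a + g * ((n + x : ℕ) : ℤ)) := by
  classical
  have h1 : ∀ H ∈ S, ∃ N : ℕ, ∀ n : ℕ, N ≤ n → ¬ ∀ x ∈ H, IsPosPrime (a + g * ((n + x : ℕ) : ℤ)) := by
    intro H hH
    have h2 := h H hH
    unfold Often at h2
    rw [Set.not_infinite] at h2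
    obtain ⟨N, hN⟩ := h2.bddAbove
    refine ⟨N + 1, fun n hn hx => ?_⟩
    have h3 : n ≤ N := hN hx
    omega
  choose! f hf using h1
  refine ⟨S.sup f, fun n hn H hH => hf H hH n (le_trans (Finset.le_sup hH) hn)⟩

private theorem crit_main (g p q : ℕ) (hg : 0 < g) (hg2 : Even (g : ℤ)) (hp : 0 < p) (hpq : p < q)
    (hc : Nat.Coprime p q) : ∃ D : ℕ, ForcesPrimes ((g : ℤ) * p) ((g : ℤ) * q) ↔
      ∀ a : ℤ, Odd a → ∃ H ⊆ Finset.range D, Blocks p q H ∧ Often a (g : ℤ) H := by
  classical
  have hgz : (0 : ℤ) < g := by exact_mod_cast hg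
  obtain ⟨D', hD'0, hD'⟩ := LAP.runs g hg (1 / 2) (by norm_num) (2 * q + q * p)
  refine ⟨2 * D', ⟨fun hF a ha => ?_, fun hH k hk A hA => ?_⟩⟩
  · by_contra hcon
    push Not at hcon
    obtain ⟨N, hN⟩ := crit_bound a g ((Finset.range (2 * D')).powerset.filter (fun H => Blocks p q H))
      (fun H hH => by
        rw [Finset.mem_filter, Finset.mem_powerset] at hH
        exact hcon H hH.1 hH.2)
    obtain ⟨X, hX1, hX2⟩ := glue p q hp hpq hc (fun t => IsPosPrime (a + g * ((N + t : ℕ) : ℤ))) D' hD'0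
      (by
        intro s
        obtain ⟨r, hr1, hr2, hr3⟩ := hD' (a + g * N) s
        refine ⟨r, hr1, hr2, fun u hu hb => ?_⟩
        have h1 := crit_rough hb
        have h2 : a + g * ((N + (r + u) : ℕ) : ℤ) = (a + g * N) + g * ((r + u : ℕ) : ℤ) := by
          push_cast
          ring
        rw [h2] at h1
        exact hr3 u hu h1)
      (by
        intro n
        set P : Finset ℕ := (Finset.range (2 * D')).filter
          (fun h => IsPosPrime (a + g * ((N + n + h : ℕ) : ℤ))) with hP
        have h1 : ¬ Blocks p q P := by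
          intro hB
          refine hN (N + n) (Nat.le_add_right _ _) P ?_ ?_
          · rw [Finset.mem_filter, Finset.mem_powerset]
            exact ⟨Finset.filter_subset _ _, hB⟩
          · intro x hx
            exact (Finset.mem_filter.1 hx).2
        unfold Blocks at h1
        push Not at h1
        obtain ⟨τ, hτ0, hτ1, hτ2⟩ := h1
        refine ⟨fun m => τ m + n, by dsimp only; linarith, fun m => ?_, fun m v hv hv1 hv2 hb => ?_⟩
        · rcases hτ1 m with h | h
          · left
            linarith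
          · right
            linarith
        · obtain ⟨x, rfl⟩ := Nat.exists_eq_add_of_le hv1
          refine hτ2 m x ?_ ?_
          · rw [hP, Finset.mem_filter, Finset.mem_range]
            refine ⟨by omega, ?_⟩
            rw [add_assoc]
            exact hb
          · push_cast at hv
            linarith)
    obtain ⟨m, hm⟩ := hF (a + g * ((N + X 0 : ℕ) : ℤ)) (ha.add_even (hg2.mul_right _))
      (fun m => a + g * ((N + X m : ℕ) : ℤ)) ⟨rfl, fun m => by
        rcases hX1 m with h | h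
        · left
          dsimp only
          rw [h]
          push_cast
          ring
        · right
          dsimp only
          rw [h]
          push_cast
          ring⟩
    exact hX2 m hm
  · obtain ⟨τ, hτ1, hτ2, hτ3⟩ := crit_pos hgz hA
    obtain ⟨H, -, hB, hO⟩ := hH k hk
    obtain ⟨n, hn, hn0⟩ := hO.exists_gt 0
    obtain ⟨m, h, hh, hm⟩ := hB (fun m => τ m - n) (by
      rw [hτ2]
      have : (0 : ℤ) < (n : ℤ) := by exact_mod_cast hn0
      linarith) (fun m => by
        rcases hτ3 m with h | h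
        · left
          linarith
        · right
          linarith)
    refine ⟨m, ?_⟩
    have h1 := hn h hh
    have h2 : A m = k + g * ((n + h : ℕ) : ℤ) := by
      rw [hτ1 m]
      push_cast
      linear_combination (g : ℤ) * hm
    rw [h2]
    exact h1

theorem criterion (i j : ℤ) (hi : Even i) (hj : Even j) (h0 : 0 < i) (hij : i < j) :
    ∃ D : ℕ, ForcesPrimes i j ↔ ∀ a : ℤ, Odd a → ∃ H ⊆ Finset.range D,
      Blocks (i / (Int.gcd i j : ℤ)).toNat (j / (Int.gcd i j : ℤ)).toNat H ∧ Often a (Int.gcd i j : ℤ) H := by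
  have hg : 0 < Int.gcd i j := Int.gcd_pos_of_ne_zero_left j h0.ne'
  have hgz : (0 : ℤ) < (Int.gcd i j : ℤ) := by exact_mod_cast hg
  have hj0 : 0 < j := h0.trans hij
  have hi1 : (Int.gcd i j : ℤ) * (i / (Int.gcd i j : ℤ)) = i := Int.mul_ediv_cancel' (Int.gcd_dvd_left i j)
  have hj1 : (Int.gcd i j : ℤ) * (j / (Int.gcd i j : ℤ)) = j := Int.mul_ediv_cancel' (Int.gcd_dvd_right i j)
  have hip : 0 < i / (Int.gcd i j : ℤ) := by
    by_contra hcon
    have : (Int.gcd i j : ℤ) * (i / (Int.gcd i j : ℤ)) ≤ 0 :=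
      mul_nonpos_of_nonneg_of_nonpos hgz.le (not_lt.1 hcon)
    omega
  have hjp : i / (Int.gcd i j : ℤ) < j / (Int.gcd i j : ℤ) := by
    refine lt_of_mul_lt_mul_left ?_ hgz.le
    rw [hi1, hj1]
    exact hij
  have hpz : (((i / (Int.gcd i j : ℤ)).toNat : ℕ) : ℤ) = i / (Int.gcd i j : ℤ) := Int.toNat_of_nonneg hip.le
  have hqz : (((j / (Int.gcd i j : ℤ)).toNat : ℕ) : ℤ) = j / (Int.gcd i j : ℤ) :=
    Int.toNat_of_nonneg (hip.trans hjp).le
  have hg2 : Even ((Int.gcd i j : ℕ) : ℤ) := by
    rw [even_iff_two_dvd]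
    exact Int.dvd_coe_gcd (even_iff_two_dvd.1 hi) (even_iff_two_dvd.1 hj)
  have hcop : Nat.Coprime (i / (Int.gcd i j : ℤ)).toNat (j / (Int.gcd i j : ℤ)).toNat := by
    have h1 := Int.gcd_ediv_gcd_ediv_gcd (i := i) (j := j) hg
    rw [← hpz, ← hqz, Int.gcd_natCast_natCast] at h1
    exact h1
  obtain ⟨D, hD⟩ := crit_main (Int.gcd i j) (i / (Int.gcd i j : ℤ)).toNat (j / (Int.gcd i j : ℤ)).toNat hg hg2
    (by omega) (by omega) hcop
  rw [hpz, hqz, hi1, hj1] at hD
  exact ⟨D, hD⟩

end Pool.Agent.LTC
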