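import Pool.Agent.LTC.Aut
import Pool.Agent.LTC.Bas

/-! LTC/Srch (0.8h).  Every blocking set for the steps `1, 4` which misses a class modulo `3`, `5` and `7` contains a translate of one of the 25 sets.

PLAN.  Words `w : List Bool`.  Define (decidable, computable):
`miss q w`: some class `r < q` contains no index `x` with `w[x] = true`;
`adm w := w = [] ∨ (w[0] = true ∧ st w ≠ (false,false,false,false) ∧ (∀ e < w.length, w[e] = true → st (w.set e false) ≠ st w) ∧ miss 3 w ∧ miss 5 w ∧ miss 7 w)`;
`srch fuel w := if ¬ adm w then true else if st w = (true,true,true,true) then (w is the word of one of list25) else fuel > 0 ∧ srch (fuel-1) (w ++ [false]) ∧ srch (fuel-1) (w ++ [true])`.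
`srch 50 [] = true` by `decide +kernel` (a C++ search visits 623 nodes, depth 49, 25 solutions).
`find25`: take a subset `H0 ⊆ H` which blocks and is minimal for inclusion (`Finset.exists_minimal` / strong induction on the cardinality); nonempty; let `s = min H0` and
`H1 = {x : x + s ∈ H0}`, `H0 = H1 + s`: `H1` blocks (`blocks_shift`), `0 ∈ H1`, and `H1` is minimal too (if `K ⊂ H1` blocks then `K + s` blocks: by `blocks_iff`, because the word of
`K + s` is `s` times `false` followed by the word of `K`, and `stp (false,false,false,false) false = (false,false,false,false)`).  Let `n` be least with `st (ind H1 n)` all true.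
Claim: `adm (ind H1 m)` for all `m ≤ n`: `w[0]`: `0 ∈ H1`; if `m ≥ 1` and `st (ind H1 m)` is all false, then `H1` without its elements `< m` still reaches the all-true state (the
evolution depends only on the state and the later letters), so it blocks: contradiction with minimality (it lacks `0`); likewise if `st (w.set e false) = st w`, `e ∈ H1`,
`e < m`: `H1 \ {e}` blocks; `miss`: `H` misses a class mod `q`, so does `H1`.  So following the word of `H1` through `srch` (induction on `n - m`, fuel `50 - m`)
gives that `ind H1 n` is a word of the list: the elements of `H1` below `n` are those of `K ∈ list25`, so `K + s ⊆ H0 ⊆ H`.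
`list25_blocks`: `blocks_iff`, `decide +kernel` for each of the 25 sets (with `n` = last element + 4, or a Bool computation over the list). -/

set_option autoImplicit false

namespace Pool.Agent.LTC

private def srch_miss (q : ℕ) (w : List Bool) : Bool :=
  (List.range q).any fun r => (List.range w.length).all fun x => !(w.getD x false) || !(x % q == r)

private def srch_adm (w : List Bool) : Bool :=
  w.isEmpty || (w.getD 0 false && (!(st w == (false, false, false, false)) &&
    ((List.range w.length).all (fun e => !(w.getD e false) || !(st (w.set e false) == st w)) &&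
      (srch_miss 3 w && (srch_miss 5 w && srch_miss 7 w)))))

private def srch_in (w : List Bool) : Bool :=
  list25.any fun K => K.all fun x => w.getD x false

private def srch_go : ℕ → List Bool → Bool
  | 0, _ => false
  | f + 1, w => !(srch_adm w) || (if st w = (true, true, true, true) then srch_in w
      else (srch_go f (w ++ [false]) && srch_go f (w ++ [true])))

private theorem srch_ok : srch_go 50 [] = true := by
  decide +kernel

private theorem srch_len (H : Finset ℕ) (m : ℕ) : (ind H m).length = m := by
  unfold ind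
  rw [List.length_map, List.length_range]

private theorem srch_getD (H : Finset ℕ) (m x : ℕ) :
    (ind H m).getD x false = decide (x < m ∧ x ∈ H) := by
  by_cases hx : x < m
  · rw [List.getD_eq_getElem _ _ (by rw [srch_len]; exact hx)]
    unfold ind
    rw [List.getElem_map, List.getElem_range]
    simp [hx]
  · rw [List.getD_eq_default _ _ (by rw [srch_len]; omega)]
    simp [hx]

private theorem srch_set (H : Finset ℕ) (m e : ℕ) : (ind H m).set e false = ind (H.erase e) m := by
  apply List.ext_getElem
  · rw [List.length_set, srch_len, srch_len]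
  · intro i h1 h2
    rw [List.getElem_set]
    unfold ind
    rw [List.getElem_map, List.getElem_map, List.getElem_range]
    by_cases h : e = i
    · subst h
      simp
    · rw [if_neg h]
      have h' : i ≠ e := fun h3 => h h3.symm
      simp [Finset.mem_erase, h']

private theorem srch_agree (H K : Finset ℕ) (m : ℕ) (h : st (ind K m) = st (ind H m))
    (hx : ∀ x, m ≤ x → (x ∈ K ↔ x ∈ H)) (n : ℕ) (hn : m ≤ n) : st (ind K n) = st (ind H n) := by
  induction n, hn using Nat.le_induction with
  | base => exact h
  | succ n hn ih =>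
    rw [st_succ, st_succ, ih]
    congr 1
    exact decide_eq_decide.2 (hx n hn)

private theorem srch_missing (H : Finset ℕ) (q m : ℕ) (h : ∃ r : ℕ, r < q ∧ ∀ x ∈ H, x % q ≠ r) :
    srch_miss q (ind H m) = true := by
  obtain ⟨r, hr, h⟩ := h
  unfold srch_miss
  rw [List.any_eq_true]
  refine ⟨r, List.mem_range.2 hr, ?_⟩
  rw [List.all_eq_true]
  intro x _
  rw [srch_getD]
  by_cases hx : x < m ∧ x ∈ H
  · have h1 := h x hx.2
    simp [h1]
  · simp [hx]

private theorem srch_adm_ind (H : Finset ℕ) (n : ℕ) (hn : st (ind H n) = (true, true, true, true))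
    (h0 : 0 ∈ H) (hmin : ∀ K : Finset ℕ, K ⊂ H → ¬ Blocks 1 4 K)
    (hq : ∀ q : ℕ, q = 3 ∨ q = 5 ∨ q = 7 → ∃ r : ℕ, r < q ∧ ∀ x ∈ H, x % q ≠ r)
    (m : ℕ) (hm : m ≤ n) : srch_adm (ind H m) = true := by
  rcases Nat.eq_zero_or_pos m with hm0 | hm0
  · subst hm0
    rfl
  unfold srch_adm
  rw [Bool.or_eq_true]
  right
  rw [Bool.and_eq_true, Bool.and_eq_true, Bool.and_eq_true, Bool.and_eq_true, Bool.and_eq_true]
  refine ⟨?_, ?_, ?_, srch_missing H 3 m (hq 3 (by simp)), srch_missing H 5 m (hq 5 (by simp)),
    srch_missing H 7 m (hq 7 (by simp))⟩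
  · rw [srch_getD]
    simp [hm0, h0]
  · rw [Bool.not_eq_true', beq_eq_false_iff_ne]
    intro hst
    refine hmin (H.filter fun x => m ≤ x) ?_ ((blocks_iff _).2 ⟨n, ?_⟩)
    · rw [Finset.ssubset_iff_of_subset (Finset.filter_subset _ _)]
      refine ⟨0, h0, ?_⟩
      rw [Finset.mem_filter]
      omega
    · rw [← hn]
      refine srch_agree H _ m ?_ (fun x hx => ?_) n hm
      · rw [hst]
        have h1 : ∀ k, k ≤ m → st (ind (H.filter fun x => m ≤ x) k) = (false, false, false, false) := by
          intro k
          induction k with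
          | zero => intro _; rfl
          | succ k ih =>
            intro hk
            rw [st_succ, ih (by omega)]
            have h2 : ¬ k ∈ H.filter fun x => m ≤ x := by
              rw [Finset.mem_filter]
              omega
            rw [decide_eq_false h2]
            rfl
        exact h1 m le_rfl
      · rw [Finset.mem_filter]
        exact ⟨fun h => h.1, fun h => ⟨h, hx⟩⟩
  · rw [List.all_eq_true]
    intro e he
    rw [srch_len, List.mem_range] at he
    rw [srch_getD]
    by_cases heH : e ∈ H
    · rw [Bool.or_eq_true]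
      right
      rw [Bool.not_eq_true', beq_eq_false_iff_ne, srch_set]
      intro hst
      refine hmin (H.erase e) (Finset.erase_ssubset heH) ((blocks_iff _).2 ⟨n, ?_⟩)
      rw [← hn]
      refine srch_agree H _ m hst (fun x hx => ?_) n hm
      rw [Finset.mem_erase]
      exact ⟨fun h => h.2, fun h => ⟨by omega, h⟩⟩
    · simp [heH]

private theorem srch_spec (H : Finset ℕ) (n : ℕ) (hn : st (ind H n) = (true, true, true, true))
    (hadm : ∀ m ≤ n, srch_adm (ind H m) = true) (f : ℕ) : ∀ m ≤ n, srch_go f (ind H m) = true →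
      ∃ K ∈ list25, ∀ x ∈ K, x ∈ H := by
  induction f with
  | zero =>
    intro m _ h
    rw [srch_go] at h
    exact absurd h Bool.false_ne_true
  | succ f ih =>
    intro m hm h
    rw [srch_go, hadm m hm, Bool.not_true, Bool.false_or] at h
    split_ifs at h with hst
    · unfold srch_in at h
      rw [List.any_eq_true] at h
      obtain ⟨K, hK, h⟩ := h
      refine ⟨K, hK, fun x hx => ?_⟩
      rw [List.all_eq_true] at h
      have h1 := h x hx
      rw [srch_getD, decide_eq_true_eq] at h1
      exact h1.2
    · rw [Bool.and_eq_true] at h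
      have hmn : m < n := by
        rcases Nat.lt_or_eq_of_le hm with h1 | h1
        · exact h1
        · subst h1
          exact absurd hn hst
      have h2 : ind H (m + 1) = ind H m ++ [decide (m ∈ H)] := by
        unfold ind
        rw [List.range_succ, List.map_append]
        rfl
      refine ih (m + 1) hmn ?_
      rw [h2]
      by_cases hmH : m ∈ H
      · rw [decide_eq_true hmH]
        exact h.2
      · rw [decide_eq_false hmH]
        exact h.1

private theorem srch_up (s : ℕ) (K : Finset ℕ) (h : Blocks 1 4 K) :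
    Blocks 1 4 (K.image fun x => x + s) := by
  intro τ h0 hst
  obtain ⟨n, k, hk, hn⟩ := h (fun n => τ n - s) (by
    show τ 0 - (s : ℤ) < 0
    omega) (fun n => by
    have := hst n
    show τ (n + 1) - (s : ℤ) - (τ n - s) = _ ∨ τ (n + 1) - (s : ℤ) - (τ n - s) = _
    rcases this with h1 | h1
    · left
      linarith
    · right
      linarith)
  refine ⟨n, k + s, Finset.mem_image.2 ⟨k, hk, rfl⟩, ?_⟩
  have hn' : τ n - (s : ℤ) = (k : ℤ) := hn
  push_cast
  linarith

theorem find25 (H : Finset ℕ) (hb : Blocks 1 4 H)
    (hm : ∀ q : ℕ, q = 3 ∨ q = 5 ∨ q = 7 → ∃ r : ℕ, r < q ∧ ∀ h ∈ H, h % q ≠ r) :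
    ∃ K ∈ list25, ∃ s : ℕ, ∀ x ∈ K, x + s ∈ H := by
  classical
  obtain ⟨H0, hH0, hmin0⟩ := Finset.exists_min_image (H.powerset.filter fun K => Blocks 1 4 K)
    (fun K => K.card) ⟨H, Finset.mem_filter.2 ⟨Finset.mem_powerset_self H, hb⟩⟩
  rw [Finset.mem_filter, Finset.mem_powerset] at hH0
  obtain ⟨hsub, hb0⟩ := hH0
  have hne : H0.Nonempty := by
    rw [← Finset.card_pos]
    exact lt_of_lt_of_le (by norm_num) (blocks_card 1 4 (by norm_num) H0 hb0)
  set s := H0.min' hne with hs
  have hsm : ∀ x ∈ H0, s ≤ x := fun x hx => Finset.min'_le H0 x hx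
  set H1 : Finset ℕ := H0.image fun x => x - s with hH1
  have hmem : ∀ x, x ∈ H1 ↔ x + s ∈ H0 := by
    intro x
    rw [hH1, Finset.mem_image]
    constructor
    · rintro ⟨y, hy, rfl⟩
      have := hsm y hy
      rwa [Nat.sub_add_cancel this]
    · intro h
      exact ⟨x + s, h, by omega⟩
  have himg : (H1.image fun x => x + s) = H0 := by
    ext y
    rw [Finset.mem_image]
    constructor
    · rintro ⟨x, hx, rfl⟩
      exact (hmem x).1 hx
    · intro hy
      have := hsm y hy
      exact ⟨y - s, (hmem _).2 (by rwa [Nat.sub_add_cancel this]), by omega⟩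
  have hb1 : Blocks 1 4 H1 := blocks_shift 1 4 (by norm_num) s H1 (by rw [himg]; exact hb0)
  have h0 : 0 ∈ H1 := (hmem 0).2 (by rw [Nat.zero_add]; exact Finset.min'_mem H0 hne)
  have hmin1 : ∀ K : Finset ℕ, K ⊂ H1 → ¬ Blocks 1 4 K := by
    intro K hK hbK
    have hinj : Function.Injective fun x : ℕ => x + s := fun a b h => by
      have h' : a + s = b + s := h
      omega
    have h1 : (K.image fun x => x + s) ⊂ H0 := by
      rw [← himg]
      exact (Finset.image_ssubset_image hinj).2 hK
    have h2 := hmin0 (K.image fun x => x + s) (Finset.mem_filter.2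
      ⟨Finset.mem_powerset.2 (h1.1.trans hsub), srch_up s K hbK⟩)
    exact absurd (Finset.card_lt_card h1) (not_lt.2 h2)
  have hq : ∀ q : ℕ, q = 3 ∨ q = 5 ∨ q = 7 → ∃ r : ℕ, r < q ∧ ∀ x ∈ H1, x % q ≠ r := by
    intro q hq
    obtain ⟨r, hr, h⟩ := hm q hq
    have hq0 : 0 < q := by omega
    refine ⟨(r + (q - s % q)) % q, Nat.mod_lt _ hq0, fun x hx hxr => ?_⟩
    refine h (x + s) (hsub ((hmem x).1 hx)) ?_
    have h1 : s % q < q := Nat.mod_lt _ hq0
    rw [Nat.add_mod, hxr, ← Nat.add_mod]
    have h2 : r + (q - s % q) + s = r + q * (s / q + 1) := by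
      have h3 := Nat.div_add_mod s q
      rw [Nat.mul_add, Nat.mul_one]
      omega
    rw [h2, Nat.add_mul_mod_self_left]
    exact Nat.mod_eq_of_lt hr
  obtain ⟨n, hn⟩ := (blocks_iff H1).1 hb1
  obtain ⟨K, hK, hKH⟩ := srch_spec H1 n hn (fun m hm => srch_adm_ind H1 n hn h0 hmin1 hq m hm)
    50 0 (Nat.zero_le n) srch_ok
  exact ⟨K, hK, s, fun x hx => hsub ((hmem x).1 (hKH x hx))⟩

private theorem srch_all : ∀ K ∈ list25, st ((List.range 60).map fun x => decide (x ∈ K)) =
    (true, true, true, true) := by
  decide +kernel

theorem list25_blocks (K : List ℕ) (hK : K ∈ list25) : Blocks 1 4 K.toFinset := by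
  rw [blocks_iff]
  refine ⟨60, ?_⟩
  rw [← srch_all K hK]
  unfold ind
  congr 1
  refine List.map_congr_left fun x _ => ?_
  exact decide_eq_decide.2 List.mem_toFinset

end Pool.Agent.LTC
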