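import Pool.Agent.LTC.Crit
import Pool.Agent.LTC.Srch
import Pool.Agent.Helper27.WalkRatio

/-! LTC/Fin.  The cases `j = 2 i` and `j = 4 i`. -/

set_option autoImplicit false

namespace Pool.Agent.LTC

open Pool.Agent.Helper27

theorem forces_of_often (i j : ℤ) (h0 : 0 < i) (hij : i < j)
    (h : ∀ a : ℤ, Odd a → ∃ H : Finset ℕ,
      Blocks (i / (Int.gcd i j : ℤ)).toNat (j / (Int.gcd i j : ℤ)).toNat H ∧ Often a (Int.gcd i j : ℤ) H) :
    ForcesPrimes i j := by
  intro k hk A hA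
  obtain ⟨hA0, hA1⟩ := hA
  set g : ℤ := (Int.gcd i j : ℤ) with hg
  have hg0 : 0 < g := by
    rw [hg]
    exact_mod_cast Int.gcd_pos_of_ne_zero_left j h0.ne'
  obtain ⟨i', hi'⟩ : g ∣ i := Int.gcd_dvd_left ..
  obtain ⟨j', hj'⟩ : g ∣ j := Int.gcd_dvd_right ..
  have hi0 : 0 ≤ i' := by
    by_contra hcon
    have : g * i' < 0 := mul_neg_of_pos_of_neg hg0 (by omega)
    omega
  have hj0 : 0 ≤ j' := by
    by_contra hcon
    have : g * j' < 0 := mul_neg_of_pos_of_neg hg0 (by omega)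
    omega
  have ei : i / g = i' := by
    rw [hi']; exact Int.mul_ediv_cancel_left _ hg0.ne'
  have ej : j / g = j' := by
    rw [hj']; exact Int.mul_ediv_cancel_left _ hg0.ne'
  have hex : ∀ m : ℕ, ∃ t : ℤ, A m = k + g * t := by
    intro m
    induction m with
    | zero => exact ⟨0, by rw [hA0]; ring⟩
    | succ m ih =>
      obtain ⟨t, ht⟩ := ih
      rcases hA1 m with h1 | h1
      · exact ⟨t + i', by rw [mul_add, ← hi']; omega⟩
      · exact ⟨t + j', by rw [mul_add, ← hj']; omega⟩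
  choose τ hτ using hex
  have h00 : τ 0 = 0 := by
    have h1 := hτ 0
    rw [hA0] at h1
    have h2 : g * τ 0 = 0 := by omega
    rcases mul_eq_zero.1 h2 with h3 | h3
    · omega
    · exact h3
  obtain ⟨H, hB, hO⟩ := h k hk
  rw [ei, ej] at hB
  obtain ⟨n, hn, hn1⟩ := hO.exists_gt 0
  obtain ⟨m, c, hc, hm⟩ := hB (fun m => τ m - n) (by
      show τ 0 - (n : ℤ) < 0
      rw [h00]; omega) (by
      intro m
      show τ (m + 1) - (n : ℤ) - (τ m - n) = _ ∨ τ (m + 1) - (n : ℤ) - (τ m - n) = _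
      rw [Int.toNat_of_nonneg hi0, Int.toNat_of_nonneg hj0]
      have e1 := hτ m
      have e2 := hτ (m + 1)
      rcases hA1 m with h1 | h1
      · left
        have h2 : g * (τ (m + 1) - τ m) = g * i' := by
          rw [mul_sub, ← hi']; omega
        have h3 := mul_left_cancel₀ hg0.ne' h2
        omega
      · right
        have h2 : g * (τ (m + 1) - τ m) = g * j' := by
          rw [mul_sub, ← hj']; omega
        have h3 := mul_left_cancel₀ hg0.ne' h2
        omega)
  refine ⟨m, ?_⟩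
  have h1 := hn c hc
  have h2 : τ m = ((n + c : ℕ) : ℤ) := by
    have : τ m - (n : ℤ) = c := hm
    push_cast
    omega
  rw [hτ m, h2]
  exact h1

private theorem fin_gcd (i c : ℤ) (h0 : 0 < i) : (Int.gcd i (c * i) : ℤ) = i := by
  have h1 : Int.gcd i (c * i) = i.natAbs := by
    rw [Int.gcd_eq_natAbs_gcd_natAbs, Int.natAbs_mul, Nat.gcd_mul_left_right]
  rw [h1]
  omega

private theorem fin_pow (i j : ℤ) (hi : Even i) (hj : Even j) (h0 : 0 < i) (hij : i < j)
    (h : ForcesPrimes i j) : ∃ u : ℕ, i = 2 ^ u := by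
  rcases ratio i j hi hj h0 hij with ⟨u, _, hu, _⟩ | ⟨T, _, _, hT⟩
  · exact ⟨u, hu⟩
  · obtain ⟨k, _, hk, A, hA, _, hn⟩ := hT 0
    obtain ⟨n, hn'⟩ := h k hk A hA
    exact absurd hn' (hn n)

/-- Translation: if the translate by `s` of `K` lies in `H`, then `Often a g H → Often a g K`. -/
private theorem fin_often (a g : ℤ) (H K : Finset ℕ) (s : ℕ) (hK : ∀ x ∈ K, x + s ∈ H)
    (h : Often a g H) : Often a g K := by
  unfold Often at h ⊢
  have h1 : ((fun n : ℕ => n + s) '' {n : ℕ | ∀ h ∈ H, IsPosPrime (a + g * ((n + h : ℕ) : ℤ))}).Infinite :=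
    h.image fun x _ y _ hxy => by
      have : x + s = y + s := hxy
      omega
  refine h1.mono ?_
  rintro _ ⟨n, hn, rfl⟩ x hx
  have h2 := hn (x + s) (hK x hx)
  have e : n + s + x = n + (x + s) := by ring
  show IsPosPrime (a + g * ((n + s + x : ℕ) : ℤ))
  rw [e]
  exact h2

theorem two (i : ℤ) (hi : Even i) (h0 : 0 < i) : ForcesPrimes i (2 * i) ↔
    (∃ u : ℕ, i = 2 ^ u) ∧ ∀ a : ℤ, Odd a → Often a i {0, 1} := by
  have hij : i < 2 * i := by omega
  have hj : Even (2 * i) := even_two_mul i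
  have hg := fin_gcd i 2 h0
  have e1 : (i / i).toNat = 1 := by rw [Int.ediv_self h0.ne']; rfl
  have e2 : (2 * i / i).toNat = 2 := by rw [Int.mul_ediv_cancel _ h0.ne']; rfl
  constructor
  · intro h
    refine ⟨fin_pow i (2 * i) hi hj h0 hij h, fun a ha => ?_⟩
    obtain ⟨D, hD⟩ := criterion i (2 * i) hi hj h0 hij
    obtain ⟨H, _, hB, hO⟩ := hD.1 h a ha
    rw [hg] at hB hO
    rw [e1, e2] at hB
    obtain ⟨x, hx, hx1⟩ := blocks_pair 1 2 (by norm_num) H hB
    refine fin_often a i H _ x ?_ hO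
    intro y hy
    rw [Finset.mem_insert, Finset.mem_singleton] at hy
    rcases hy with rfl | rfl
    · rw [zero_add]; exact hx
    · rw [add_comm]; exact hx1
  · rintro ⟨_, h⟩
    refine forces_of_often i (2 * i) h0 hij fun a ha => ⟨{0, 1}, ?_, ?_⟩
    · rw [hg, e1, e2]
      intro τ h0 hs
      have hex : ∃ m : ℕ, 0 ≤ τ m := by
        by_contra hcon
        push Not at hcon
        have hgr : ∀ m : ℕ, τ 0 + m ≤ τ m := by
          intro m
          induction m with
          | zero => simp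
          | succ m ih => rcases hs m with h1 | h1 <;> push_cast at h1 ⊢ <;> omega
        have := hgr (τ 0).natAbs
        have := hcon (τ 0).natAbs
        omega
      classical
      have hm := Nat.find_spec hex
      have hlt : ∀ l, l < Nat.find hex → ¬ 0 ≤ τ l := fun l hl => Nat.find_min hex hl
      obtain ⟨m, hm'⟩ : ∃ m, Nat.find hex = m + 1 := by
        refine Nat.exists_eq_succ_of_ne_zero fun h1 => ?_
        rw [h1] at hm
        omega
      rw [hm'] at hm
      have h3 := hlt m (by omega)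
      refine ⟨m + 1, ?_⟩
      rcases hs m with h1 | h1
      · exact ⟨0, by simp, by push_cast at h1 ⊢; omega⟩
      · push_cast at h1
        have h4 : τ (m + 1) = 0 ∨ τ (m + 1) = 1 := by omega
        rcases h4 with h4 | h4
        · exact ⟨0, by simp, by rw [h4]; rfl⟩
        · exact ⟨1, by simp, by rw [h4]; rfl⟩
    · rw [hg]; exact h a ha

/-- A set of integers which often are all primes misses a class modulo every odd prime. -/
private theorem fin_miss (a i : ℤ) (u : ℕ) (hi : i = 2 ^ u) (h0 : 0 < i) (H : Finset ℕ)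
    (h : Often a i H) (q : ℕ) (hq : q.Prime) (hq2 : q ≠ 2) : ∃ r : ℕ, r < q ∧ ∀ x ∈ H, x % q ≠ r := by
  by_contra hcon
  push Not at hcon
  obtain ⟨n, hn, hn1⟩ := h.exists_gt (q + a.natAbs)
  -- invert `i` modulo `q`
  have hco : IsCoprime i (q : ℤ) := by
    rw [hi]
    refine IsCoprime.pow_left ?_
    rw [Int.isCoprime_iff_gcd_eq_one]
    have : Nat.Coprime 2 q := (Nat.coprime_primes Nat.prime_two hq).2 hq2.symm
    simpa [Int.gcd] using this
  obtain ⟨b, c, hbc⟩ := hco
  have hqz : (0 : ℤ) < q := by exact_mod_cast hq.pos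
  set r : ℤ := (-(a * b) - n) % (q : ℤ) with hr
  have hr0 : 0 ≤ r := Int.emod_nonneg _ hqz.ne'
  have hr1 : r < q := Int.emod_lt_of_pos _ hqz
  obtain ⟨x, hx, hxr⟩ := hcon r.toNat (by omega)
  have hxr' : (x : ℤ) % q = r := by
    have : ((x % q : ℕ) : ℤ) = ((r.toNat : ℕ) : ℤ) := by rw [hxr]
    rw [Int.toNat_of_nonneg hr0] at this
    exact_mod_cast this
  have hdvd : (q : ℤ) ∣ a + i * ((n + x : ℕ) : ℤ) := by
    have h1 : (q : ℤ) ∣ (x : ℤ) - (-(a * b) - n) := by
      exact Int.ModEq.dvd (by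
        show (-(a * b) - (n : ℤ)) % q = (x : ℤ) % q
        rw [hxr'])
    obtain ⟨d, hd⟩ := h1
    have e : (x : ℤ) = -(a * b) - n + q * d := by omega
    push_cast
    rw [e]
    refine ⟨c * a + i * d, ?_⟩
    have : c * (q : ℤ) = 1 - b * i := by omega
    calc a + i * ((n : ℤ) + (-(a * b) - n + q * d)) = a * (1 - b * i) + i * q * d := by ring
      _ = a * (c * q) + i * q * d := by rw [this]
      _ = q * (c * a + i * d) := by ring
  obtain ⟨p, hp, hpe⟩ := hn x hx
  rw [hpe] at hdvd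
  have hpq : q = p := (Nat.prime_dvd_prime_iff_eq hq hp).1 (by exact_mod_cast hdvd)
  have hge : (n : ℤ) ≤ i * ((n + x : ℕ) : ℤ) := by
    have h1 : (1 : ℤ) * ((n + x : ℕ) : ℤ) ≤ i * ((n + x : ℕ) : ℤ) :=
      mul_le_mul_of_nonneg_right (by omega) (by positivity)
    push_cast at h1 ⊢
    omega
  rw [← hpq] at hpe
  omega

theorem four (i : ℤ) (hi : Even i) (h0 : 0 < i) : ForcesPrimes i (4 * i) ↔
    (∃ u : ℕ, i = 2 ^ u) ∧ ∀ a : ℤ, Odd a → ∃ K ∈ list25, Often a i K.toFinset := by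
  have hij : i < 4 * i := by omega
  have hj : Even (4 * i) := hi.mul_left 4
  have hg := fin_gcd i 4 h0
  have e1 : (i / i).toNat = 1 := by rw [Int.ediv_self h0.ne']; rfl
  have e2 : (4 * i / i).toNat = 4 := by rw [Int.mul_ediv_cancel _ h0.ne']; rfl
  constructor
  · intro h
    obtain ⟨u, hu⟩ := fin_pow i (4 * i) hi hj h0 hij h
    refine ⟨⟨u, hu⟩, fun a ha => ?_⟩
    obtain ⟨D, hD⟩ := criterion i (4 * i) hi hj h0 hij
    obtain ⟨H, _, hB, hO⟩ := hD.1 h a ha
    rw [hg] at hB hO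
    rw [e1, e2] at hB
    obtain ⟨K, hK, s, hs⟩ := find25 H hB fun q hq => by
      refine fin_miss a i u hu h0 H hO q ?_ ?_ <;> rcases hq with rfl | rfl | rfl <;> norm_num
    exact ⟨K, hK, fin_often a i H _ s (fun x hx => hs x (List.mem_toFinset.1 hx)) hO⟩
  · rintro ⟨_, h⟩
    refine forces_of_often i (4 * i) h0 hij fun a ha => ?_
    obtain ⟨K, hK, hO⟩ := h a ha
    refine ⟨K.toFinset, ?_, ?_⟩
    · rw [hg, e1, e2]; exact list25_blocks K hK
    · rw [hg]; exact hO

end Pool.Agent.LTC
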