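import Mathlib

/-! LTC/Glue.  Gluing paths inside runs of good positions (pure combinatorics). -/

set_option autoImplicit false

namespace Pool.Agent.LTC

/-- large numbers are combinations of two coprime numbers -/
private theorem glue_frob (p q : ℕ) (hp : 0 < p) (hc : Nat.Coprime p q) (m : ℕ) (hm : p * q ≤ m) :
    ∃ e f : ℕ, m = e * p + f * q := by
  rcases Nat.lt_or_ge 1 p with h1 | h1
  · obtain ⟨a, -, ha⟩ := Nat.exists_mul_mod_eq_one_of_coprime hc.symm h1
    have hf : (a * m) % p < p := Nat.mod_lt _ hp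
    have hfq : (a * m) % p * q ≤ m := (Nat.mul_le_mul_right q hf.le).trans hm
    have h2 : (a * m) % p * q ≡ m [MOD p] := by
      have h3 : (a * m) % p * q ≡ a * m * q [MOD p] := (Nat.mod_modEq _ _).mul_right q
      have h4 : a * m * q ≡ 1 * m [MOD p] := by
        have h5 : q * a ≡ 1 [MOD p] := by
          unfold Nat.ModEq
          rw [ha, Nat.mod_eq_of_lt h1]
        have h6 : a * m * q = q * a * m := by ring
        rw [h6]
        exact h5.mul_right m
      rw [one_mul] at h4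
      exact h3.trans h4
    obtain ⟨e, he⟩ := (Nat.modEq_iff_dvd' hfq).1 h2
    refine ⟨e, (a * m) % p, ?_⟩
    have h7 : p * e = e * p := Nat.mul_comm _ _
    omega
  · have h2 : p = 1 := by omega
    exact ⟨m, 0, by rw [h2]; omega⟩

/-- the first position which is at least `N` -/
private theorem glue_first (p q : ℕ) (hp : 0 < p) (hpq : p < q) (τ : ℕ → ℤ)
    (hs : ∀ m, τ (m + 1) - τ m = p ∨ τ (m + 1) - τ m = q) (N : ℕ) (h0 : τ 0 < N) :
    ∃ (m x : ℕ), τ m = x ∧ N ≤ x ∧ x < N + q := by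
  have hgrow : ∀ m : ℕ, τ 0 + m ≤ τ m := by
    intro m
    induction m with
    | zero => simp
    | succ m ih =>
      have h1 := hs m
      push_cast
      omega
  have hex : ∃ m : ℕ, (N : ℤ) ≤ τ m := by
    refine ⟨(N - τ 0).toNat, ?_⟩
    have h1 := hgrow (N - τ 0).toNat
    omega
  classical
  have h1 := Nat.find_spec hex
  have h2 : Nat.find hex ≠ 0 := by
    intro h
    rw [h] at h1
    omega
  obtain ⟨m, hm⟩ := Nat.exists_eq_succ_of_ne_zero h2
  have h3 : ¬ (N : ℤ) ≤ τ m := Nat.find_min hex (by omega)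
  rw [hm] at h1
  have h4 := hs m
  refine ⟨m + 1, (τ (m + 1)).toNat, ?_, ?_, ?_⟩
  · rw [Nat.succ_eq_add_one] at h1
    omega
  · rw [Nat.succ_eq_add_one] at h1
    omega
  · rw [Nat.succ_eq_add_one] at h1
    omega

theorem glue (p q : ℕ) (hp : 0 < p) (hpq : p < q) (hc : Nat.Coprime p q) (Bad : ℕ → Prop) (D : ℕ) (hD0 : 0 < D)
    (hD : ∀ s : ℕ, ∃ r : ℕ, s ≤ r ∧ r + (2 * q + q * p) ≤ s + D ∧ ∀ u : ℕ, u < 2 * q + q * p → ¬ Bad (r + u))
    (hX : ∀ n : ℕ, ∃ τ : ℕ → ℤ, τ 0 < n ∧ (∀ m, τ (m + 1) - τ m = p ∨ τ (m + 1) - τ m = q) ∧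
      ∀ (m v : ℕ), τ m = v → n ≤ v → v < n + 2 * D → ¬ Bad v) :
    ∃ X : ℕ → ℕ, (∀ m, X (m + 1) = X m + p ∨ X (m + 1) = X m + q) ∧ ∀ m, ¬ Bad (X m) := by
  choose r hr1 hr2 hr3 using fun n : ℕ => hD (n * D)
  choose τ hτ1 hτ2 hτ3 using fun n : ℕ => hX (n * D)
  obtain ⟨L, hL⟩ : ∃ L, L = 2 * q + q * p := ⟨_, rfl⟩
  rw [← hL] at hr2 hr3
  have hL1 : 2 * q ≤ L := by rw [hL]; exact Nat.le_add_right _ _
  have hv : ∀ n : ℕ, ∃ (m x : ℕ), τ n m = x ∧ r n + L - q ≤ x ∧ x < r n + L := by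
    intro n
    have h1 := hτ1 n
    have h2 := hr1 n
    obtain ⟨m, x, h3, h4, h5⟩ := glue_first p q hp hpq (τ n) (hτ2 n) (r n + L - q) (by
      have h6 : n * D ≤ r n + L - q := by omega
      exact lt_of_lt_of_le h1 (by exact_mod_cast h6))
    exact ⟨m, x, h3, h4, by omega⟩
  choose mv v hv1 hv2 hv3 using hv
  have hnext : ∀ n, r n + L ≤ r (n + 1) := by
    intro n
    have h1 := hr2 n
    have h2 := hr1 (n + 1)
    have h3 : (n + 1) * D = n * D + D := by ring
    omega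
  -- fine positions
  let Fine : ℕ → Prop := fun x => ∃ n, ((∃ m, τ n m = x) ∧ v n ≤ x ∧ x < r (n + 1)) ∨
    (r n ≤ x ∧ x ≤ v n ∧ ∃ e f, v n = x + e * p + f * q)
  have hgood : ∀ x, Fine x → ¬ Bad x := by
    rintro x ⟨n, ⟨⟨m, hm⟩, h1, h2⟩ | ⟨h1, h2, -⟩⟩
    · refine hτ3 n m x hm ?_ ?_
      · have h3 := hr1 n
        have h4 := hv2 n
        omega
      · have h3 := hr2 (n + 1)
        have h4 : (n + 1) * D = n * D + D := by ring
        omega
    · have h3 := hr3 n (x - r n) (by have := hv3 n; omega)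
      rwa [Nat.add_sub_cancel' h1] at h3
  have hA : ∀ n m x, τ n m = (x : ℕ) → v n ≤ x → x < r (n + 1) → Fine (x + p) ∨ Fine (x + q) := by
    intro n m x hm h1 h2
    -- a position after `x`
    have key : ∀ y : ℕ, τ n (m + 1) = y → y ≤ x + q → x ≤ y → Fine y := by
      intro y hy hyq hxy
      rcases Nat.lt_or_ge y (r (n + 1)) with h3 | h3
      · exact ⟨n, Or.inl ⟨⟨m + 1, hy⟩, h1.trans hxy, h3⟩⟩
      · have h4 := hv2 (n + 1)
        have h5 : q * p + 1 ≤ v (n + 1) - y := by omega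
        obtain ⟨e, f, hef⟩ := glue_frob p q hp hc (v (n + 1) - y) (by rw [Nat.mul_comm]; omega)
        exact ⟨n + 1, Or.inr ⟨h3, by omega, e, f, by omega⟩⟩
    rcases hτ2 n m with h3 | h3
    · exact Or.inl (key (x + p) (by push_cast; omega) (by omega) (by omega))
    · exact Or.inr (key (x + q) (by push_cast; omega) (by omega) (by omega))
  have hstep : ∀ x, Fine x → Fine (x + p) ∨ Fine (x + q) := by
    rintro x ⟨n, ⟨⟨m, hm⟩, h1, h2⟩ | ⟨h1, h2, e, f, hef⟩⟩
    · exact hA n m x hm h1 h2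
    · rcases Nat.eq_zero_or_pos e with he | he
      · rcases Nat.eq_zero_or_pos f with hf | hf
        · subst he hf
          have h3 : v n = x := by omega
          refine hA n (mv n) x ?_ h3.le ?_
          · rw [hv1 n, h3]
          · have h4 := hnext n
            have h5 := hv3 n
            omega
        · right
          obtain ⟨f', rfl⟩ := Nat.exists_eq_add_of_lt hf
          have h3 : (0 + f' + 1) * q = f' * q + q := by ring
          rw [h3] at hef
          exact ⟨n, Or.inr ⟨by omega, by omega, e, f', by omega⟩⟩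
      · left
        obtain ⟨e', rfl⟩ := Nat.exists_eq_add_of_lt he
        have h3 : (0 + e' + 1) * p = e' * p + p := by ring
        rw [h3] at hef
        exact ⟨n, Or.inr ⟨by omega, by omega, e', f, by omega⟩⟩
  have h0 : Fine (v 0) := ⟨0, Or.inl ⟨⟨mv 0, hv1 0⟩, le_rfl, by
    have h4 := hnext 0
    have h5 := hv3 0
    omega⟩⟩
  have hch : ∀ x : {x // Fine x}, ∃ y : {x // Fine x}, y.1 = x.1 + p ∨ y.1 = x.1 + q := by
    rintro ⟨x, hx⟩
    rcases hstep x hx with h | h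
    · exact ⟨⟨x + p, h⟩, Or.inl rfl⟩
    · exact ⟨⟨x + q, h⟩, Or.inr rfl⟩
  choose g hg using hch
  refine ⟨fun m => (g^[m] ⟨v 0, h0⟩).1, fun m => ?_, fun m => hgood _ (g^[m] ⟨v 0, h0⟩).2⟩
  show (g^[m + 1] ⟨v 0, h0⟩).1 = _ ∨ (g^[m + 1] ⟨v 0, h0⟩).1 = _
  rw [Function.iterate_succ_apply']
  exact hg _

end Pool.Agent.LTC
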