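import Pool.Agent.LTC.Fin

/-! LTC/Main.  Assembly. -/

set_option autoImplicit false

namespace Pool.Agent.LTC

open Pool.Agent.Helper27

theorem main (i j : ℤ) (hi : Even i) (hj : Even j) (h0 : 0 < i) (hij : i < j) (p q : ℕ)
    (hp : i = p * Int.gcd i j) (hq : j = q * Int.gcd i j) :
    (∃ D : ℕ, ∀ D' ≥ D, (ForcesPrimes i j ↔
      ∀ a : ℤ, Odd a → ∃ H ⊆ Finset.range D', Blocks p q H ∧ Often a (Int.gcd i j) H)) ∧
    (∀ H : Finset ℕ, Blocks p q H → q ≤ H.card ∧ ∃ x ∈ H, x + (q - p) ∈ H) ∧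
    (j = 2 * i → (ForcesPrimes i j ↔ (∃ u : ℕ, i = 2 ^ u) ∧ ∀ a : ℤ, Odd a → Often a i {0, 1})) ∧
    (j = 4 * i → (ForcesPrimes i j ↔
      (∃ u : ℕ, i = 2 ^ u) ∧ ∀ a : ℤ, Odd a → ∃ K ∈ list25, Often a i K.toFinset)) := by
  have hg : (0 : ℤ) < Int.gcd i j := by
    have : 0 < Int.gcd i j := Int.gcd_pos_of_ne_zero_left _ h0.ne'
    exact_mod_cast this
  have hp' : (i / (Int.gcd i j : ℤ)).toNat = p := by
    have : i / (Int.gcd i j : ℤ) = p := Int.ediv_eq_of_eq_mul_left hg.ne' hp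
    rw [this]; rfl
  have hq' : (j / (Int.gcd i j : ℤ)).toNat = q := by
    have : j / (Int.gcd i j : ℤ) = q := Int.ediv_eq_of_eq_mul_left hg.ne' hq
    rw [this]; rfl
  have hpq : p < q := by
    have : (p : ℤ) * Int.gcd i j < q * Int.gcd i j := by
      rw [← hp, ← hq]; exact hij
    exact_mod_cast lt_of_mul_lt_mul_right this hg.le
  refine ⟨?_, ?_, ?_, ?_⟩
  · obtain ⟨D, hD⟩ := criterion i j hi hj h0 hij
    have hF := forces_of_often i j h0 hij
    rw [hp', hq'] at hD hF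
    refine ⟨D, fun D' hDD => ⟨fun h a ha => ?_, fun h => hF fun a ha => ?_⟩⟩
    · obtain ⟨H, hH, hB, hO⟩ := hD.1 h a ha
      exact ⟨H, hH.trans (Finset.range_mono hDD), hB, hO⟩
    · obtain ⟨H, -, hB, hO⟩ := h a ha
      exact ⟨H, hB, hO⟩
  · intro H hH
    exact ⟨blocks_card p q (by omega) H hH, blocks_pair p q hpq H hH⟩
  · rintro rfl
    exact two i hi h0
  · rintro rfl
    exact four i hi h0

end Pool.Agent.LTC
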